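import Mathlib
import Pool.Agent.Lib.MP_eac85a_an.Core

/-!
Weak phase retrieval by `2n-2` subspaces fails for the dimension vector `(1, …, 1)` as soon as
`n ≥ 7`: no `2n-2` lines of `ℝ^n` do weak phase retrieval.
-/

namespace Pool.Agent.Lib.MP_eac85a_an.Variants.NoLines

/-- `x` and `y` weakly have the same phase. -/
def WeaklySamePhase {n : ℕ} (x y : EuclideanSpace ℝ (Fin n)) : Prop :=
  ∃ θ : ℝ, (θ = 1 ∨ θ = -1) ∧
    ∀ i, x i ≠ 0 → y i ≠ 0 → Real.sign (x i) = θ * Real.sign (y i)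

/-- The family of subspaces `W` does weak phase retrieval. -/
def WeakPhaseRetrieval {n m : ℕ} (W : Fin m → Submodule ℝ (EuclideanSpace ℝ (Fin n))) : Prop :=
  ∀ x y : EuclideanSpace ℝ (Fin n),
    (∀ i, ‖(W i).starProjection x‖ = ‖(W i).starProjection y‖) → WeaklySamePhase x y

lemma sign_mul_nonneg {a b : ℝ} (h : Real.sign a = 1 * Real.sign b) : 0 ≤ a * b := by
  rcases lt_trichotomy a 0 with ha | ha | ha <;> rcases lt_trichotomy b 0 with hb | hb | hb
  all_goals first
    | exact (mul_pos_of_neg_of_neg ha hb).le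
    | exact (mul_pos ha hb).le
    | (subst ha; simp)
    | (subst hb; simp)
    | (rw [Real.sign_of_neg ha, Real.sign_of_pos hb] at h; norm_num at h)
    | (rw [Real.sign_of_pos ha, Real.sign_of_neg hb] at h; norm_num at h)

lemma sign_mul_nonpos {a b : ℝ} (h : Real.sign a = -1 * Real.sign b) : a * b ≤ 0 := by
  have : Real.sign a = 1 * Real.sign (-b) := by rw [Real.sign_neg, h]; ring
  have := sign_mul_nonneg this
  linarith

lemma same_sign {n : ℕ} {x y : EuclideanSpace ℝ (Fin n)} (h : WeaklySamePhase x y) :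
    (∀ i, 0 ≤ x i * y i) ∨ (∀ i, x i * y i ≤ 0) := by
  obtain ⟨θ, hθ | hθ, h⟩ := h
  · left
    intro i
    by_cases hx : x i = 0
    · simp [hx]
    by_cases hy : y i = 0
    · simp [hy]
    exact sign_mul_nonneg (hθ ▸ h i hx hy)
  · right
    intro i
    by_cases hx : x i = 0
    · simp [hx]
    by_cases hy : y i = 0
    · simp [hy]
    exact sign_mul_nonpos (hθ ▸ h i hx hy)

lemma key_ineq {A B C D : ℝ} (hA : 0 ≤ A) (hB : 0 ≤ B) (hC : 0 ≤ C) (hD : 0 ≤ D)
    (h : ∀ s t : ℝ, 0 ≤ s → 0 ≤ t →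
      (0 ≤ s * A - t * B ∧ 0 ≤ s * C - t * D) ∨ (s * A - t * B ≤ 0 ∧ s * C - t * D ≤ 0)) :
    A * D ≤ C * B := by
  by_contra hlt
  rcases h (B + D) (A + C) (by positivity) (by positivity) with h | h <;> nlinarith [h.1, h.2]

theorem result (n : ℕ) (hn : 7 ≤ n)
    (W : Fin (2 * n - 2) → Submodule ℝ (EuclideanSpace ℝ (Fin n)))
    (hW : ∀ i, Module.finrank ℝ (W i) = 1) : ¬ WeakPhaseRetrieval W := by
  intro hw
  have hex : ∀ i, ∃ φ : EuclideanSpace ℝ (Fin n), W i = Submodule.span ℝ {φ} := by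
    intro i
    obtain ⟨v, -, hv⟩ := finrank_eq_one_iff'.1 (hW i)
    refine ⟨v, le_antisymm ?_ ?_⟩
    · intro w hw
      obtain ⟨c, hc⟩ := hv ⟨w, hw⟩
      exact Submodule.mem_span_singleton.2 ⟨c, congrArg Subtype.val hc⟩
    · rw [Submodule.span_singleton_le_iff_mem]; exact v.2
  choose φ hφ using hex
  set f : Fin (2 * n - 2) → ((Fin n → ℝ) →ₗ[ℝ] ℝ) := fun i =>
    (innerₛₗ ℝ (φ i)).comp (WithLp.linearEquiv 2 ℝ (Fin n → ℝ)).symm.toLinearMap with hfdef
  have hproj : ∀ i (u : Fin n → ℝ), f i u = 0 →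
      (W i).starProjection (WithLp.toLp 2 u : EuclideanSpace ℝ (Fin n)) = 0 := by
    intro i u hu
    rw [Submodule.starProjection_apply_eq_zero_iff, hφ i,
      Submodule.mem_orthogonal_singleton_iff_inner_right]
    exact hu
  apply Pool.Agent.Lib.MP_eac85a_an.not_hyp (f := f) hn (Fintype.card_fin _)
  intro I u v hu hv
  have main : ∀ s t : ℝ, 0 ≤ s → 0 ≤ t →
      (∀ j, 0 ≤ s * u j ^ 2 - t * v j ^ 2) ∨ (∀ j, s * u j ^ 2 - t * v j ^ 2 ≤ 0) := by
    intro s t hs ht
    set u' : EuclideanSpace ℝ (Fin n) := WithLp.toLp 2 u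
    set v' : EuclideanSpace ℝ (Fin n) := WithLp.toLp 2 v
    have h1 := hw (√s • u' + √t • v') (√s • u' - √t • v') (by
      intro i
      by_cases hi : i ∈ I
      · simp only [map_add, map_sub, map_smul]
        rw [hproj i u (hu i hi)]
        simp
      · simp only [map_add, map_sub, map_smul]
        rw [hproj i v (hv i hi)]
        simp)
    have h2 : ∀ j, (√s • u' + √t • v') j * (√s • u' - √t • v') j
        = s * u j ^ 2 - t * v j ^ 2 := by
      intro j
      have e1 : (√s • u' + √t • v') j = √s * u j + √t * v j := rfl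
      have e2 : (√s • u' - √t • v') j = √s * u j - √t * v j := rfl
      rw [e1, e2]
      have e3 := Real.mul_self_sqrt hs
      have e4 := Real.mul_self_sqrt ht
      linear_combination (u j ^ 2) * e3 - (v j ^ 2) * e4
    rcases same_sign h1 with h | h
    · left; intro j; rw [← h2]; exact h j
    · right; intro j; rw [← h2]; exact h j
  have hle : ∀ j l, u j ^ 2 * v l ^ 2 ≤ u l ^ 2 * v j ^ 2 := by
    intro j l
    apply key_ineq (sq_nonneg _) (sq_nonneg _) (sq_nonneg _) (sq_nonneg _)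
    intro s t hs ht
    rcases main s t hs ht with h | h
    · exact Or.inl ⟨h j, h l⟩
    · exact Or.inr ⟨h j, h l⟩
  intro j l
  exact le_antisymm (hle j l) (hle l j)

end Pool.Agent.Lib.MP_eac85a_an.Variants.NoLines
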